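import Mathlib
import Pool.Agent.Lib.MP_07117b_nt_h64.Stmt
import Pool.Agent.Lib.MP_07117b_nt_h64.Main

/-!
# MP_07117b_nt: the Minkowski dimension of an arboreal Galois group need not exist

The definitions (`ratMap`, `preimages`, `levelField`, `ratio`, `lowerDim`, `upperDim`) are in
`Pool/Agent/Lib/MP_07117b_nt_h64/Stmt.lean`.

The example: `K = ℚ(a, ω, ζ)` with `a^2 = -2`, `ω^2 + ω + 1 = 0`, `ζ` a primitive 13th root of one,
`α = 1` and the map `f(x) = X(ω / R(x)^13)` of degree `52`, where `R(x) = x (x + 2) / (2 x + 1)` and
`X(w) = - w (w + a) / (a w + 1)`. It satisfies `f(f(1/x)) = 1 / f(f(x))`, but `f(1/x)` is not a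
Moebius transform of `f(x)`: the symmetry is there only at every second step, and the Galois group
grows at different rates at odd and at even levels: for odd `n` one has
`[K_{n+1} : K_n] ≤ (13 * 2^13)^(52^n)`, for even `n ≥ 2` one has
`[K_{n+1} : K_n] ≥ (2^24)^(52^n)`.
-/

namespace Pool.Agent.Results.MP_07117b_nt.DimensionNeedNotExist

open Polynomial Pool.Agent.Arb

/-- There are a number field `K`, a rational map `f = p/q` over `K` (`p`, `q` coprime, of degree
`max (deg p) (deg q) ≥ 2`) and a point `α` of `P^1(K)` such that the ratios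
`log [K_n : K] / log A_n` are bounded and their lower limit (the lower Minkowski dimension of the
arboreal Galois group) is strictly smaller than their upper limit (the upper Minkowski
dimension). -/
theorem result : ∃ (K : Type) (_ : Field K) (_ : NumberField K) (p q : K[X]) (α : OnePoint K),
    IsCoprime p q ∧ 2 ≤ max p.natDegree q.natDegree ∧
    (∃ c : ℝ, ∀ n, 0 ≤ ratio p q α n ∧ ratio p q α n ≤ c) ∧
    lowerDim p q α < upperDim p q α := final

end Pool.Agent.Results.MP_07117b_nt.DimensionNeedNotExist
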